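import Pool.Agent.R877.RN.Stm

/-! Project RN, piece SPEED (helper150). -/

set_option autoImplicit false

namespace R877.RN
namespace Speed
open Matrix Filter Topology
open scoped Polynomial

theorem tendsto_div (P Q : ℝ[X]) (hQ : ∀ t, Q.eval t ≠ 0)
    (hb : ∀ t, |P.eval t / Q.eval t| ≤ 1) :
    ∃ c, Tendsto (fun t => P.eval t / Q.eval t) atTop (𝓝 c) := by
  have hQ0 : Q ≠ 0 := by
    rintro rfl
    exact hQ 0 (by simp)
  rcases lt_trichotomy P.degree Q.degree with h | h | h
  · exact ⟨0, P.div_tendsto_atTop_zero_of_degree_lt Q h⟩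
  · exact ⟨_, P.div_tendsto_atTop_leadingCoeff_div_of_degree_eq Q h⟩
  · exfalso
    have h1 := P.abs_div_tendsto_atTop_atTop_of_degree_gt Q h hQ0
    obtain ⟨t, ht⟩ := (h1.eventually (eventually_gt_atTop 1)).exists
    exact absurd (hb t) (not_le.2 ht)

theorem ex_eq {n : ℕ} {N : Mat n} (hN : N ^ n = 0) (t : ℝ) :
    ex N t = IsNilpotent.exp (t • N) := by
  have h1 : (t • N) ^ n = 0 := by rw [smul_pow, hN, smul_zero]
  rw [IsNilpotent.exp_eq_sum h1, ex]
  refine Finset.sum_congr rfl fun m _ => ?_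
  rw [smul_pow, ← Rat.cast_smul_eq_qsmul ℝ, smul_smul]
  congr 1
  push_cast
  ring

theorem ex_add {n : ℕ} {N : Mat n} (hN : N ^ n = 0) (s t : ℝ) :
    ex N (s + t) = ex N s * ex N t := by
  have hn : ∀ r : ℝ, IsNilpotent (r • N) := fun r => ⟨n, by rw [smul_pow, hN, smul_zero]⟩
  rw [ex_eq hN, ex_eq hN, ex_eq hN, add_smul]
  exact IsNilpotent.exp_add_of_commute
    (((Commute.refl N).smul_left s).smul_right t) (hn s) (hn t)

theorem ex_zero {n : ℕ} {N : Mat n} (hN : N ^ n = 0) : ex N 0 = 1 := by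
  rw [ex_eq hN, zero_smul]
  simp

/-- polynomial matrix of `ex N t` -/
noncomputable def exP {n : ℕ} (N : Mat n) : Matrix (Fin n) (Fin n) ℝ[X] :=
  ∑ m ∈ Finset.range n, (Polynomial.C (1 / (m.factorial : ℝ)) * Polynomial.X ^ m) •
    (N ^ m).map Polynomial.C

/-- evaluation of polynomial matrices -/
noncomputable def ev {n : ℕ} (t : ℝ) : Matrix (Fin n) (Fin n) ℝ[X] →+* Mat n :=
  (Polynomial.evalRingHom t).mapMatrix

theorem ev_apply {n : ℕ} (t : ℝ) (A : Matrix (Fin n) (Fin n) ℝ[X]) (i j : Fin n) :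
    ev t A i j = (A i j).eval t := rfl

theorem ev_C {n : ℕ} (t : ℝ) (A : Mat n) : ev t (A.map Polynomial.C) = A := by
  ext i j
  simp [ev_apply]

theorem ev_exP {n : ℕ} (N : Mat n) (t : ℝ) : ev t (exP N) = ex N t := by
  rw [exP, ex, map_sum]
  refine Finset.sum_congr rfl fun m _ => ?_
  ext i j
  simp [ev_apply]
  ring

theorem ev_transpose {n : ℕ} (t : ℝ) (A : Matrix (Fin n) (Fin n) ℝ[X]) :
    ev t Aᵀ = (ev t A)ᵀ := rfl

variable {n : ℕ}

/-- polynomial in `s` from a sandwiched exponential -/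
theorem coeff_one {N A B : Mat n} (hN : N ^ n = 0) (h : ∀ s, A * ex N s * B = 0) :
    A * N * B = 0 := by
  ext i j
  set p : ℝ[X] := ∑ m ∈ Finset.range n,
    Polynomial.C (1 / (m.factorial : ℝ) * (A * N ^ m * B) i j) * Polynomial.X ^ m with hp
  have h0 : p = 0 := by
    refine Polynomial.funext fun s => ?_
    have h1 := congrArg (fun M : Mat n => M i j) (h s)
    simp only [ex, Finset.mul_sum, Finset.sum_mul, Matrix.sum_apply, Matrix.mul_smul,
      Matrix.smul_mul, Matrix.smul_apply, smul_eq_mul, Matrix.zero_apply] at h1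
    rw [hp, Polynomial.eval_finsetSum]
    simp only [Polynomial.eval_mul, Polynomial.eval_C, Polynomial.eval_pow, Polynomial.eval_X,
      Polynomial.eval_zero]
    rw [← h1]
    refine Finset.sum_congr rfl fun m _ => ?_
    ring
  have h2 : p.coeff 1 = 0 := by rw [h0]; simp
  rw [hp, Polynomial.finsetSum_coeff] at h2
  simp only [Polynomial.coeff_C_mul_X_pow] at h2
  by_cases hn : 1 < n
  · rw [Finset.sum_eq_single_of_mem 1 (Finset.mem_range.2 hn)] at h2
    · simpa using h2
    · intro m _ hm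
      rw [if_neg (Ne.symm hm)]
  · have hn0 : n ≠ 0 := by
      rintro rfl
      exact i.elim0
    have hn1 : n = 1 := by omega
    subst hn1
    rw [pow_one] at hN
    rw [hN]
    simp

theorem key {J N l : Mat n} {L : ℝ → Mat n} (hJ : J * J = J) (hJt : Jᵀ = J) (hN : N ^ n = 0)
    (hl : IsO l) (hL : ∀ t, IsO (L t))
    (hR : ∀ t, (L t * ex N t * lᵀ) * J = J * (L t * ex N t * lᵀ) * J) :
    Tendsto (fun t => (1 - (L t)ᵀ * J * L t) * N * ((L t)ᵀ * J * L t)) atTop (𝓝 0) := by
  have hLL : ∀ t, L t * (L t)ᵀ = 1 := hL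
  have hLt : ∀ t, (L t)ᵀ * L t = 1 := fun t => mul_eq_one_comm.1 (hL t)
  have hll : l * lᵀ = 1 := hl
  have hJ1 : J * (1 - J) = 0 := by rw [mul_sub, mul_one, hJ, sub_self]
  have hJ2 : (1 - J) * J = 0 := by rw [sub_mul, one_mul, hJ, sub_self]
  have hJ3 : (1 - J) * (1 - J) = 1 - J := by rw [mul_sub, mul_one, hJ2, sub_zero]
  have hJ3t : (1 - J)ᵀ = 1 - J := by rw [transpose_sub, transpose_one, hJt]
  set R : ℝ → Mat n := fun t => L t * ex N t * lᵀ with hRdef
  have hR' : ∀ t, R t * J = J * R t * J := hR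
  set B : ℝ → Mat n := fun t => J * R t * J + (1 - J) with hBdef
  have hJB : ∀ t, J * B t = R t * J := by
    intro t
    rw [hBdef]
    simp only
    rw [mul_add, hJ1, add_zero, ← mul_assoc, ← mul_assoc, hJ, hR']
  have hJB' : ∀ t, (1 - J) * B t = 1 - J := by
    intro t
    rw [hBdef]
    simp only
    rw [mul_add, hJ3, ← mul_assoc, ← mul_assoc, hJ2, zero_mul, zero_mul, zero_add]
  have hinv : ∀ t, (l * ex N (-t) * (L t)ᵀ) * R t = 1 := by
    intro t
    rw [hRdef]
    simp only
    calc l * ex N (-t) * (L t)ᵀ * (L t * ex N t * lᵀ)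
        = l * ex N (-t) * ((L t)ᵀ * L t) * ex N t * lᵀ := by simp only [mul_assoc]
      _ = l * (ex N (-t) * ex N t) * lᵀ := by rw [hLt, mul_one]; simp only [mul_assoc]
      _ = 1 := by rw [← ex_add hN, neg_add_cancel, ex_zero hN, mul_one, hll]
  have hBdet : ∀ t, (B t).det ≠ 0 := by
    intro t h0
    obtain ⟨v, hv, hv0⟩ := Matrix.exists_mulVec_eq_zero_iff.2 h0
    apply hv
    have h1 : (J * B t) *ᵥ v = 0 := by rw [← mulVec_mulVec, hv0, mulVec_zero]
    have h2 : ((1 - J) * B t) *ᵥ v = 0 := by rw [← mulVec_mulVec, hv0, mulVec_zero]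
    rw [hJB] at h1
    rw [hJB', sub_mulVec, one_mulVec, sub_eq_zero] at h2
    have h3 : R t *ᵥ v = 0 := by
      rw [← mulVec_mulVec, ← h2] at h1
      exact h1
    have h4 : ((l * ex N (-t) * (L t)ᵀ) * R t) *ᵥ v = 0 := by
      rw [← mulVec_mulVec, h3, mulVec_zero]
    rw [hinv, one_mulVec] at h4
    exact h4
  set M : ℝ → Mat n := fun t => ex N t * lᵀ * J with hMdef
  have hM : ∀ t, M t = (L t)ᵀ * J * B t := by
    intro t
    rw [mul_assoc, hJB, hRdef, hMdef]
    simp only
    calc ex N t * lᵀ * J = ((L t)ᵀ * L t) * (ex N t * lᵀ * J) := by rw [hLt, one_mul]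
      _ = (L t)ᵀ * (L t * ex N t * lᵀ * J) := by simp only [mul_assoc]
  set G : ℝ → Mat n := fun t => (M t)ᵀ * M t + (1 - J) with hGdef
  have hG : ∀ t, G t = (B t)ᵀ * B t := by
    intro t
    have e1 : (M t)ᵀ * M t = (B t)ᵀ * (J * B t) := by
      rw [hM, transpose_mul, transpose_mul, transpose_transpose, hJt]
      calc (B t)ᵀ * (J * L t) * ((L t)ᵀ * J * B t)
          = (B t)ᵀ * (J * (L t * (L t)ᵀ) * J * B t) := by simp only [mul_assoc]
        _ = (B t)ᵀ * (J * B t) := by rw [hLL, mul_one, hJ]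
    have e2 : (B t)ᵀ * (1 - J) = 1 - J := by
      have := congrArg Matrix.transpose (hJB' t)
      rwa [transpose_mul, hJ3t] at this
    have e3 : (B t)ᵀ * ((1 - J) * B t) = 1 - J := by rw [hJB', e2]
    calc (M t)ᵀ * M t + (1 - J) = (B t)ᵀ * (J * B t) + (B t)ᵀ * ((1 - J) * B t) := by
          rw [e1, e3]
      _ = (B t)ᵀ * ((J + (1 - J)) * B t) := by
          rw [add_mul J (1 - J) (B t)]
          exact (mul_add _ _ _).symm
      _ = (B t)ᵀ * B t := by rw [add_sub_cancel, one_mul]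
  have hPiG : ∀ t, (L t)ᵀ * J * L t = M t * (G t)⁻¹ * (M t)ᵀ := by
    intro t
    have hu : IsUnit (B t).det := isUnit_iff_ne_zero.2 (hBdet t)
    have hut : IsUnit ((B t)ᵀ).det := by rwa [det_transpose]
    rw [hG, hM, Matrix.mul_inv_rev, transpose_mul, transpose_mul, transpose_transpose, hJt]
    calc (L t)ᵀ * J * L t = (L t)ᵀ * (J * J) * L t := by rw [hJ]
      _ = (L t)ᵀ * J * (B t * (B t)⁻¹) * (((B t)ᵀ)⁻¹ * (B t)ᵀ) * (J * L t) := by
          rw [Matrix.mul_nonsing_inv _ hu, Matrix.nonsing_inv_mul _ hut, mul_one, mul_one]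
          simp only [mul_assoc]
      _ = _ := by simp only [mul_assoc]
  have hGdet : ∀ t, (G t).det ≠ 0 := by
    intro t
    rw [hG, det_mul, det_transpose]
    exact mul_ne_zero (hBdet t) (hBdet t)
  set Pi : ℝ → Mat n := fun t => (L t)ᵀ * J * L t with hPidef
  have hPi2 : ∀ t, Pi t * Pi t = Pi t := by
    intro t
    calc (L t)ᵀ * J * L t * ((L t)ᵀ * J * L t)
        = (L t)ᵀ * (J * (L t * (L t)ᵀ) * J) * L t := by simp only [mul_assoc]
      _ = (L t)ᵀ * J * L t := by rw [hLL, mul_one, hJ]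
  have hPit : ∀ t, (Pi t)ᵀ = Pi t := by
    intro t
    rw [hPidef]
    simp only
    rw [transpose_mul, transpose_mul, transpose_transpose, hJt, mul_assoc]
  have hPib : ∀ t i j, |Pi t i j| ≤ 1 := by
    intro t i j
    have e1 : Pi t i i = ∑ k, (Pi t i k) ^ 2 := by
      conv_lhs => rw [← hPi2 t]
      rw [Matrix.mul_apply]
      refine Finset.sum_congr rfl fun k _ => ?_
      have : Pi t k i = Pi t i k := by
        conv_lhs => rw [← hPit t]
        rfl
      rw [this]
      ring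
    have e2 : ∀ k, (Pi t i k) ^ 2 ≤ Pi t i i := by
      intro k
      rw [e1]
      exact Finset.single_le_sum (f := fun k => (Pi t i k) ^ 2) (fun k _ => sq_nonneg _)
        (Finset.mem_univ k)
    have e3 : Pi t i i ≤ 1 := by
      have := e2 i
      nlinarith [sq_nonneg (Pi t i i)]
    rw [abs_le_one_iff_mul_self_le_one]
    have := e2 j
    nlinarith
  -- polynomial form
  set Mp : Matrix (Fin n) (Fin n) ℝ[X] := exP N * (lᵀ).map Polynomial.C * J.map Polynomial.C
    with hMp
  set Gp : Matrix (Fin n) (Fin n) ℝ[X] := Mpᵀ * Mp + (1 - J.map Polynomial.C) with hGp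
  have evM : ∀ t, ev t Mp = M t := by
    intro t
    rw [hMp, map_mul, map_mul, ev_exP, ev_C, ev_C]
  have evG : ∀ t, ev t Gp = G t := by
    intro t
    rw [hGp, map_add, map_mul, map_sub, map_one, ev_C, ev_transpose, evM]
  have evdet : ∀ t, (Gp.det).eval t = (G t).det := by
    intro t
    have := RingHom.map_det (Polynomial.evalRingHom t) Gp
    rw [← evG t]
    exact this
  have evadj : ∀ t, ev t Gp.adjugate = (G t).adjugate := by
    intro t
    have := RingHom.map_adjugate (Polynomial.evalRingHom t) Gp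
    rw [← evG t]
    exact this
  have hform : ∀ t i j, Pi t i j =
      ((Mp * Gp.adjugate * Mpᵀ) i j).eval t / (Gp.det).eval t := by
    intro t i j
    rw [← ev_apply, map_mul, map_mul, evadj, ev_transpose, evM, evdet]
    have e1 : Pi t = (G t).det⁻¹ • (M t * (G t).adjugate * (M t)ᵀ) := by
      rw [show Pi t = M t * (G t)⁻¹ * (M t)ᵀ from hPiG t, Matrix.inv_def, Ring.inverse_eq_inv']
      simp only [Matrix.mul_smul, Matrix.smul_mul]
    rw [e1, Matrix.smul_apply, smul_eq_mul, div_eq_inv_mul]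
  have hlimij : ∀ i j, ∃ c, Tendsto (fun t => Pi t i j) atTop (𝓝 c) := by
    intro i j
    have h1 := tendsto_div ((Mp * Gp.adjugate * Mpᵀ) i j) Gp.det
      (fun t => by rw [evdet]; exact hGdet t) (fun t => by rw [← hform]; exact hPib t i j)
    obtain ⟨c, hc⟩ := h1
    refine ⟨c, hc.congr fun t => ?_⟩
    rw [hform]
  choose c hc using hlimij
  set P0 : Mat n := Matrix.of c with hP0
  have hlim : Tendsto Pi atTop (𝓝 P0) :=
    tendsto_pi_nhds.2 fun i => tendsto_pi_nhds.2 fun j => hc i j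
  have hcoc : ∀ s t, (1 - Pi (s + t)) * ex N s * Pi t = 0 := by
    intro s t
    have e1 : ex N s * M t = M (s + t) := by
      rw [hMdef]
      simp only
      rw [ex_add hN]
      simp only [mul_assoc]
    have e2 : Pi (s + t) * M (s + t) = M (s + t) := by
      rw [hM, hPidef]
      simp only
      calc (L (s + t))ᵀ * J * L (s + t) * ((L (s + t))ᵀ * J * B (s + t))
          = (L (s + t))ᵀ * (J * (L (s + t) * (L (s + t))ᵀ) * J) * B (s + t) := by
            simp only [mul_assoc]
        _ = (L (s + t))ᵀ * J * B (s + t) := by rw [hLL, mul_one, hJ]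
    rw [show Pi t = M t * (G t)⁻¹ * (M t)ᵀ from hPiG t]
    calc (1 - Pi (s + t)) * ex N s * (M t * (G t)⁻¹ * (M t)ᵀ)
        = (1 - Pi (s + t)) * (ex N s * M t) * ((G t)⁻¹ * (M t)ᵀ) := by simp only [mul_assoc]
      _ = 0 := by rw [e1, sub_mul, one_mul, e2, sub_self, zero_mul]
  have hz : ∀ s, (1 - P0) * ex N s * P0 = 0 := by
    intro s
    have h1 : Tendsto (fun t => Pi (s + t)) atTop (𝓝 P0) :=
      hlim.comp (tendsto_atTop_add_const_left atTop s tendsto_id)
    have h2 : Tendsto (fun t => (1 - Pi (s + t)) * ex N s * Pi t) atTop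
        (𝓝 ((1 - P0) * ex N s * P0)) :=
      ((tendsto_const_nhds.sub h1).mul tendsto_const_nhds).mul hlim
    have h3 : (fun t => (1 - Pi (s + t)) * ex N s * Pi t) = fun _ => 0 := by
      funext t
      exact hcoc s t
    rw [h3] at h2
    exact tendsto_nhds_unique h2 tendsto_const_nhds
  have hz1 : (1 - P0) * N * P0 = 0 := coeff_one hN hz
  have hfin : Tendsto (fun t => (1 - Pi t) * N * Pi t) atTop (𝓝 ((1 - P0) * N * P0)) :=
    ((tendsto_const_nhds.sub hlim).mul tendsto_const_nhds).mul hlim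
  rw [hz1] at hfin
  exact hfin

end Speed

open Matrix Filter Topology Speed

theorem p_SPEED : P_SPEED := by
  classical
  intro n N l a L hN hl hL hPar i j hij
  set J : Mat n := diagonal (fun p => if a j ≤ a p then (1 : ℝ) else 0) with hJdef
  have hJ : J * J = J := by
    rw [hJdef, diagonal_mul_diagonal]
    congr 1
    funext p
    split_ifs <;> simp
  have hJt : Jᵀ = J := by rw [hJdef, diagonal_transpose]
  have hR : ∀ t, (L t * ex N t * lᵀ) * J = J * (L t * ex N t * lᵀ) * J := by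
    intro t
    ext p q
    rw [hJdef, mul_diagonal, mul_diagonal, diagonal_mul]
    by_cases hq : a j ≤ a q
    · rw [if_pos hq, mul_one]
      by_cases h0 : (L t * ex N t * lᵀ) p q = 0
      · rw [h0, mul_zero, zero_mul]
      · rw [if_pos (hq.trans (hPar t p q h0)), one_mul, mul_one]
    · rw [if_neg hq, mul_zero, mul_zero]
  have hkey := key hJ hJt hN hl hL hR
  have hLt : ∀ t, (L t)ᵀ * L t = 1 := fun t => mul_eq_one_comm.1 (hL t)
  have hLL : ∀ t, L t * (L t)ᵀ = 1 := hL
  have hLb : ∀ t p q, |L t p q| ≤ 1 := by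
    intro t p q
    have e1 : ∑ k, (L t p k) ^ 2 = 1 := by
      have := congrArg (fun M : Mat n => M p p) (hLL t)
      simp only [Matrix.mul_apply, transpose_apply, one_apply_eq] at this
      rw [← this]
      refine Finset.sum_congr rfl fun k _ => by ring
    have e2 : (L t p q) ^ 2 ≤ 1 := by
      rw [← e1]
      exact Finset.single_le_sum (f := fun k => (L t p k) ^ 2) (fun k _ => sq_nonneg _)
        (Finset.mem_univ q)
    rw [abs_le_one_iff_mul_self_le_one]
    nlinarith
  set K : ℝ → Mat n := fun t => (1 - (L t)ᵀ * J * L t) * N * ((L t)ᵀ * J * L t) with hK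
  have hentry : ∀ t, (L t * N * (L t)ᵀ) i j = (L t * K t * (L t)ᵀ) i j := by
    intro t
    have e1 : L t * K t * (L t)ᵀ = (1 - J) * (L t * N * (L t)ᵀ) * J := by
      have f1 : L t * (1 - (L t)ᵀ * J * L t) = (1 - J) * L t := by
        rw [mul_sub, mul_one, sub_mul, one_mul, ← mul_assoc, ← mul_assoc, hLL, one_mul]
      have f2 : ((L t)ᵀ * J * L t) * (L t)ᵀ = (L t)ᵀ * J := by
        rw [mul_assoc, hLL, mul_one]
      calc L t * K t * (L t)ᵀ
          = (L t * (1 - (L t)ᵀ * J * L t)) * N * (((L t)ᵀ * J * L t) * (L t)ᵀ) := by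
            rw [hK]; simp only [mul_assoc]
        _ = (1 - J) * (L t * N * (L t)ᵀ) * J := by
            rw [f1, f2]; simp only [mul_assoc]
    have e2 : (1 - J : Mat n) = diagonal (fun p => if a j ≤ a p then (0 : ℝ) else 1) := by
      rw [hJdef, ← diagonal_one, diagonal_sub]
      congr 1
      funext p
      split_ifs <;> simp
    rw [e1, e2, hJdef, mul_diagonal, diagonal_mul, if_neg (not_le.2 hij), if_pos le_rfl,
      one_mul, mul_one]
  have hsum : Tendsto (fun t => ∑ p, ∑ q, |K t p q|) atTop (𝓝 0) := by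
    have h1 : ∀ p q, Tendsto (fun t => |K t p q|) atTop (𝓝 0) := by
      intro p q
      have h2 := (tendsto_pi_nhds.1 (tendsto_pi_nhds.1 hkey p)) q
      have h3 := h2.abs
      simpa using h3
    have h4 : Tendsto (fun t => ∑ p, ∑ q, |K t p q|) atTop (𝓝 (∑ _p : Fin n, ∑ _q : Fin n, 0)) :=
      tendsto_finsetSum _ fun p _ => tendsto_finsetSum _ fun q _ => h1 p q
    simpa using h4
  rw [tendsto_zero_iff_abs_tendsto_zero]
  refine squeeze_zero (fun t => abs_nonneg _) (fun t => ?_) hsum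
  simp only [Function.comp]
  rw [hentry t, Matrix.mul_apply]
  refine (Finset.abs_sum_le_sum_abs _ _).trans ?_
  rw [Finset.sum_comm]
  refine Finset.sum_le_sum fun q _ => ?_
  rw [abs_mul, Matrix.mul_apply, transpose_apply]
  calc |∑ p, L t i p * K t p q| * |L t j q| ≤ |∑ p, L t i p * K t p q| * 1 :=
        mul_le_mul_of_nonneg_left (hLb t j q) (abs_nonneg _)
    _ = |∑ p, L t i p * K t p q| := mul_one _
    _ ≤ ∑ p, |L t i p * K t p q| := Finset.abs_sum_le_sum_abs _ _
    _ ≤ ∑ p, |K t p q| := by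
        refine Finset.sum_le_sum fun p _ => ?_
        rw [abs_mul]
        calc |L t i p| * |K t p q| ≤ 1 * |K t p q| :=
              mul_le_mul_of_nonneg_right (hLb t i p) (abs_nonneg _)
          _ = _ := one_mul _

end R877.RN
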